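import Pool.Agent.Helper54.S4.Stmts

set_option autoImplicit false

namespace Pool.Agent.Helper54.S4

open Finset Pool.Agent.Helper54.SP

theorem snd4_fan {Γ : List Gt} {nw : ℕ} {P Q : List ℕ → Prop} (h : ∀ g, P g → Q g)
    (hP : Fan4 Γ nw P) : Fan4 Γ nw Q := by
  obtain ⟨h1, h2, h3, h4, h5, h6, h7⟩ := hP
  exact ⟨fun p q hn => h _ (h1 p q hn), fun p q hn => h _ (h2 p q hn), h _ h3, h _ h4, h _ h5,
    fun j hj T hT => h _ (h6 j hj T hT), fun j hj T hT => h _ (h7 j hj T hT)⟩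

theorem st_SND4 (hFANS : ST_FANS4) (hLT0 : ST_LT4 false) (hLT1 : ST_LT4 true) (hORD : ST_ORD4)
    (hGI0 : ST_GI4 false) (hGI1 : ST_GI4 true) (hQS : ST_QS4) (hCO : ST_CO4) (hLV : ST_LV4)
    (hPT : ST_PT4) (hFAC : ST_FAC) (hFMEM : ST_FMEM) (hOSP : ST_OSP) : ST_SND4 := by
  intro Γ nw hWF hB hR
  have hval : Valid 4 (N4 Γ + 2) (fac4 Γ nw) := by
    intro f hf
    have h1 := hFMEM 4 (N4 Γ + 2) (ch5 Γ nw) f hf
    exact ⟨h1.1, h1.2.1, h1.2.2.2.1⟩
  obtain ⟨X, hX⟩ := hFAC 4 (N4 Γ + 2) (fac4 Γ nw) (by omega) hval hR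
  have hF : Fan4 Γ nw (OS 5 X (N4 Γ + 2)) := by
    refine snd4_fan ?_ (hFANS Γ nw hWF)
    rintro g ⟨f, hf, hfg⟩
    exact hOSP 5 X (N4 Γ + 2) f g hfg (by rw [(hval f hf).1]) (hX f hf)
  have hlen : 0 < Γ.length := by
    obtain ⟨⟨g, hg, _⟩, _⟩ := hB
    exact List.length_pos_of_mem hg
  have hLT : ∀ j, j < 4 * Γ.length → ∀ T ∈ KT (tj j),
      0 < sb (tb4 (tj j) T.1 T.2.1 T.2.2) *
        (br (N4 Γ) 2 X (pt j T.1) (pt j T.2.1) (pt j T.2.2) * br (N4 Γ) 2 X 0 2 3) := by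
    intro j hj
    cases ht : tj j
    · exact hLT0 Γ nw X hWF hF j hj ht
    · exact hLT1 Γ nw X hWF hF j hj ht
  obtain ⟨x, y, hxy⟩ := hORD Γ nw X hWF hlen hF hLT
  have hinc : ∀ j, j < 4 * Γ.length → ∀ i, i < 5 → y (pt j i) < y (pt j (i + 1)) := by
    intro j hj i hi
    obtain ⟨g1, _, _, g4⟩ := hPT.1 j i (by omega)
    obtain ⟨k1, _, _, k4⟩ := hPT.1 j (i + 1) (by omega)
    have a1 : pt j i < N4 Γ := (hPT.2.2.1 Γ (pt j i) g4).2 (by rw [g1]; omega)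
    have a2 : pt j (i + 1) < N4 Γ := (hPT.2.2.1 Γ (pt j (i + 1)) k4).2 (by rw [k1]; omega)
    have a3 : pt j i < pt j (i + 1) := by
      unfold pt
      omega
    exact hxy.yo _ _ (by omega) (by omega) a1 a2
      ((hLV Γ nw hWF).2.2.2.2.1 _ _ g4 a3 a2 (by rw [g1, k1]))
  have hineq : ∀ j, j < 4 * Γ.length →
      (j % 2 = 1 → FF (fun i => y (pt j i)) < FG (fun i => y (pt j i))) ∧
      (j % 2 = 0 → FG (fun i => y (pt j i)) < FF (fun i => y (pt j i))) := by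
    intro j hj
    have h1 := hxy.tr j hj
    by_cases c : j % 2 = 1
    · have ht : tj j = true := by
        unfold tj
        exact decide_eq_true c
      rw [ht] at h1
      have h2 := hGI1 (fun i => x (pt j i)) (fun i => y (pt j i)) (hinc j hj) h1
      exact ⟨fun _ => h2.1 rfl, fun e => by omega⟩
    · have ht : tj j = false := by
        unfold tj
        exact decide_eq_false c
      rw [ht] at h1
      have h2 := hGI0 (fun i => x (pt j i)) (fun i => y (pt j i)) (hinc j hj) h1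
      exact ⟨fun e => absurd e c, fun _ => h2.2 rfl⟩
  obtain ⟨V, hV1, hV2⟩ := hQS Γ nw y hWF hxy.yo hineq
  exact hCO Γ nw V hWF hB hV1 hV2

end Pool.Agent.Helper54.S4
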